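import Pool.Agent.Lib.MP_63edde_co.Main

namespace Pool.Agent.Results.MP_63edde_co.AllOrders

/-- Every 2-edge-coloured graph on `n` vertices with minimum degree at least `(2n-5)/3` has its
vertex set partitioned into at most two vertex sets of monochromatic trees, for every `n`. -/
theorem result (n : ℕ) (G : SimpleGraph (Fin n)) [DecidableRel G.Adj]
    (hd : (2 * (n : ℚ) - 5) / 3 ≤ G.minDegree) (c : Sym2 (Fin n) → Fin 2) :
    ∃ A B : Set (Fin n), Disjoint A B ∧ A ∪ B = Set.univ ∧ ∀ S ∈ ({A, B} : Set (Set (Fin n))),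
      S = ∅ ∨ ∃ (i : Fin 2) (T : SimpleGraph S), T.IsTree ∧
        ∀ u v : S, T.Adj u v → G.Adj u v ∧ c s((u : Fin n), (v : Fin n)) = i := by
  have hd' : 2 * Fintype.card (Fin n) ≤ 3 * G.minDegree + 5 := by
    rw [Fintype.card_fin]
    have : (2 * n : ℚ) ≤ 3 * G.minDegree + 5 := by linarith
    exact_mod_cast this
  have key : ∀ (S : Set (Fin n)) (i : Fin 2),
      ((G.deleteEdges {e | c e ≠ i}).induce S).Connected →
      ∃ (i : Fin 2) (T : SimpleGraph S), T.IsTree ∧
        ∀ u v : S, T.Adj u v → G.Adj u v ∧ c s((u : Fin n), (v : Fin n)) = i := by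
    intro S i h
    obtain ⟨T, hle, hT⟩ := h.exists_isTree_le
    refine ⟨i, T, hT, fun u v huv => ?_⟩
    have := hle huv
    simpa [SimpleGraph.deleteEdges_adj] using this
  obtain ⟨A, B, h1, h2, h3, h4⟩ := Pool.Agent.Lib.MP_63edde_co.main (Fin n) G hd' c
  refine ⟨A, B, h1, h2, ?_⟩
  intro S hS
  rcases hS with rfl | rfl
  · rcases h3 with h | h | h
    · exact Or.inl h
    · exact Or.inr (key _ 0 h)
    · exact Or.inr (key _ 1 h)
  · rcases h4 with h | h | h
    · exact Or.inl h
    · exact Or.inr (key _ 0 h)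
    · exact Or.inr (key _ 1 h)

end Pool.Agent.Results.MP_63edde_co.AllOrders
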